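import Pool.Agent.Results.MP_5a9264_co.ExponentialArea

/-!
# Area of upward drawings of directed outerplanar graphs: an explicit exponential rate

`A n` is the maximum over the `n`-vertex directed outerplanar graphs with an upward drawing of the
minimum area of an upward straight-line grid drawing.  The family of the starting result
`ExponentialArea` gives `A n ≥ 4 ^ ⌊(n - 16) / 7⌋` for `n ≥ 16`, hence `A n ≥ 4 ^ ((n - 22) / 7)`, and
`A n ≥ b ^ n` for every `b < 4 ^ (1 / 7) = 1.219…` and all large `n`.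
-/

set_option autoImplicit false

open Filter Pool.Agent.Results.MP_5a9264_co.ExponentialArea

namespace Pool.Agent.Results.MP_5a9264_co.ExplicitRate

theorem nat_bound (n : ℕ) (hn : 16 ≤ n) : 4 ^ ((n - 16) / 7) ≤ A n := by
  set K := (n - 16) / 7 with hK
  have hK1 : 7 * (K + 1) + 8 < n := by omega
  have h1 : minArea (Gn n) ≤ A n := le_csSup (bddAbove_set n) ⟨Gn n, ⟨gnDrawing n⟩, rfl⟩
  have h2 : 4 ^ K ≤ minArea (Gn n) := by
    have hne : {a | ∃ D : UpwardDrawing (Gn n), a = D.area}.Nonempty := ⟨_, gnDrawing n, rfl⟩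
    obtain ⟨D, hD⟩ := Nat.sInf_mem hne
    have hD' : minArea (Gn n) = D.area := hD
    rw [hD']
    exact area_bound n K hK1 D
  exact h2.trans h1

theorem real_bound (n : ℕ) (hn : 16 ≤ n) : (4 : ℝ) ^ (((n : ℝ) - 22) / 7) ≤ (A n : ℝ) := by
  have h := nat_bound n hn
  have h' : ((4 : ℝ) ^ ((n - 16) / 7) : ℝ) ≤ (A n : ℝ) := by exact_mod_cast h
  refine le_trans ?_ h'
  rw [← Real.rpow_natCast]
  apply Real.rpow_le_rpow_of_exponent_le (by norm_num)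
  have h3 : n ≤ 7 * ((n - 16) / 7) + 22 := by omega
  have h4 : (n : ℝ) ≤ 7 * (((n - 16) / 7 : ℕ) : ℝ) + 22 := by exact_mod_cast h3
  linarith

theorem base_lower : (1.219 : ℝ) < (4 : ℝ) ^ (1 / 7 : ℝ) := by
  rw [← Real.rpow_lt_rpow_iff (z := 7) (by norm_num) (by positivity) (by norm_num),
    ← Real.rpow_mul (by norm_num)]
  norm_num

theorem eventually_bound (b : ℝ) (hb0 : 0 ≤ b) (hb : b < (4 : ℝ) ^ (1 / 7 : ℝ)) :
    ∀ᶠ n : ℕ in atTop, b ^ n ≤ (A n : ℝ) := by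
  set B : ℝ := (4 : ℝ) ^ (1 / 7 : ℝ) with hB
  have hBpos : 0 < B := by positivity
  have ht : Tendsto (fun n : ℕ => (b / B) ^ n) atTop (nhds 0) :=
    tendsto_pow_atTop_nhds_zero_of_lt_one (by positivity) ((div_lt_one hBpos).2 hb)
  have hc : (0 : ℝ) < (4 : ℝ) ^ (-(22 / 7) : ℝ) := by positivity
  filter_upwards [ht.eventually_lt_const hc, eventually_ge_atTop 16] with n h1 hn
  refine le_trans ?_ (real_bound n hn)
  have e : (4 : ℝ) ^ (((n : ℝ) - 22) / 7) = (4 : ℝ) ^ (-(22 / 7) : ℝ) * B ^ n := by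
    rw [hB, ← Real.rpow_natCast, ← Real.rpow_mul (by norm_num), ← Real.rpow_add (by norm_num)]
    congr 1
    ring
  rw [e]
  rw [div_pow, div_lt_iff₀ (by positivity)] at h1
  exact h1.le

/-- (1) `A n ≥ 4 ^ ⌊(n - 16) / 7⌋` and (2) `A n ≥ 4 ^ ((n - 22) / 7)` for all `n ≥ 16`;
(3) for every `0 ≤ b < 4 ^ (1 / 7)`, `A n ≥ b ^ n` for all large `n`; (4) `4 ^ (1 / 7) > 1.219`. -/
theorem result :
    (∀ n : ℕ, 16 ≤ n → 4 ^ ((n - 16) / 7) ≤ A n) ∧
    (∀ n : ℕ, 16 ≤ n → (4 : ℝ) ^ (((n : ℝ) - 22) / 7) ≤ (A n : ℝ)) ∧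
    (∀ b : ℝ, 0 ≤ b → b < (4 : ℝ) ^ (1 / 7 : ℝ) → ∀ᶠ n : ℕ in atTop, b ^ n ≤ (A n : ℝ)) ∧
    (1.219 : ℝ) < (4 : ℝ) ^ (1 / 7 : ℝ) :=
  ⟨nat_bound, real_bound, eventually_bound, base_lower⟩

end Pool.Agent.Results.MP_5a9264_co.ExplicitRate
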